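import Mathlib
import Pool.Agent.Q89.AS.F
set_option autoImplicit false

/-!
# The extension conjecture for densities whose spectrum has small local additive energy

`E` is the extension operator of the paraboloid in `ℝ³`, `S ⊂ ℝ²` any square of side `2l`,
`f = 1_S exp(is|x|²) g` with `g ∈ L²(S)` whose Fourier series on `S` (in both variables) has its
spectrum in a set `Λ ⊆ ℤ²`. If the part of `Λ` in every square of side `R` represents every vector
as a sum of two elements in at most `A R^α` ways, then `‖E f‖_q ≤ C ‖g‖_{L²(S)}` for all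
`q > 2(3-α)/(2-α)`: for `α = 0` this is the whole conjectured range `q > 3`, and `α = 1` gives
the exponent of the theorem of Tomas and Stein.
-/

namespace Pool.Agent.Results.MP_5ab805_an.AdditiveSpectrum

open MeasureTheory Set Complex
open scoped ENNReal NNReal

/-- The extension operator of the paraboloid in `ℝ³`, `ξ = (ξ', ξ₃)`:
`Ef(ξ) = ∫ exp(-i(x₁ξ₁ + x₂ξ₂ + |x|²ξ₃)) f(x) dx`. -/
noncomputable def ext (f : (Fin 2 → ℝ) → ℂ) (ξ : (Fin 2 → ℝ) × ℝ) : ℂ :=
  ∫ x : Fin 2 → ℝ, cexp (-(I * ((∑ i, x i * ξ.1 i + (∑ i, x i ^ 2) * ξ.2 : ℝ) : ℂ))) * f x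

/-- The closed square with centre `p` and side `2l`. -/
def square (p : Fin 2 → ℝ) (l : ℝ) : Set (Fin 2 → ℝ) :=
  Icc (fun i => p i - l) (fun i => p i + l)

/-- The density `1_S(x) exp(is|x|²) g(x)`, `S` the square. -/
noncomputable def density (p : Fin 2 → ℝ) (l s : ℝ) (g : (Fin 2 → ℝ) → ℂ) : (Fin 2 → ℝ) → ℂ :=
  (square p l).indicator fun x => cexp (I * ((s * ∑ i, x i ^ 2 : ℝ) : ℂ)) * g x

/-- The Fourier series of `g` on the square (the frequencies are `πk/l`, `k ∈ ℤ²`) has its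
spectrum in `Λ`: `∫_S g(x) exp(-iπ k·x/l) dx = 0` for all `k` outside `Λ`. -/
def SpectrumIn (L : Set (Fin 2 → ℤ)) (p : Fin 2 → ℝ) (l : ℝ) (g : (Fin 2 → ℝ) → ℂ) : Prop :=
  ∀ k, k ∉ L → ∫ x in square p l,
    g x * cexp (-(I * ((Real.pi / l * ∑ i, (k i : ℝ) * x i : ℝ) : ℂ))) = 0

/-- The points of `Λ` in the square `[a₁, a₁ + R) × [a₂, a₂ + R)`. -/
def inBox (L : Set (Fin 2 → ℤ)) (R : ℕ) (a : Fin 2 → ℤ) : Set (Fin 2 → ℤ) :=
  {k | k ∈ L ∧ ∀ i, a i ≤ k i ∧ k i < a i + R}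

/-- In every square of side `R ≥ 1` every vector `n` is a sum `k + k'` of two points of `Λ` in
that square in at most `A R^α` ways. -/
def AdditiveGrowth (L : Set (Fin 2 → ℤ)) (A α : ℝ) : Prop :=
  ∀ R : ℕ, 1 ≤ R → ∀ a n : Fin 2 → ℤ,
    (({w : (Fin 2 → ℤ) × (Fin 2 → ℤ) | w.1 ∈ inBox L R a ∧ w.2 ∈ inBox L R a ∧
      w.1 + w.2 = n}.ncard : ℕ) : ℝ) ≤ A * (R : ℝ) ^ α

/-- The exponential `exp(πi k·v)` of period two. -/
noncomputable def wave (k : Fin 2 → ℤ) (v : Fin 2 → ℝ) : ℂ :=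
  cexp (Real.pi * I * ((∑ j, (k j : ℝ) * v j : ℝ) : ℂ))

/-- The part of `Λ` in any square of side `R ≥ 1` is a `Λ(q)` set with constant `K R^κ`. -/
def LambdaGrowth (q : ℝ) (K : ℝ≥0) (κ : ℝ) (L : Set (Fin 2 → ℤ)) : Prop :=
  ∀ R : ℕ, 1 ≤ R → ∀ a : Fin 2 → ℤ, ∀ F : Finset (Fin 2 → ℤ), (∀ k ∈ F, k ∈ inBox L R a) →
    ∀ c : (Fin 2 → ℤ) → ℂ,
    ∫⁻ v in Icc (fun _ => (-1 : ℝ)) (fun _ => 1), ‖∑ k ∈ F, c k * wave k v‖ₑ ^ q ≤
      (K * (R : ℝ≥0∞) ^ κ * (∑ k ∈ F, ‖c k‖ₑ ^ 2) ^ (1 / 2 : ℝ)) ^ q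

/-- The estimate `‖E(1_S exp(is|x|²) g)‖_{L^q(ℝ³)} ≤ C l^(1-4/q) ‖g‖_{L²(S)}` for all squares
`S`, all real `s` and all `g ∈ L²(S)` with spectrum in `Λ`. -/
def ExtensionEstimate (L : Set (Fin 2 → ℤ)) (q : ℝ) (C : ℝ≥0) : Prop :=
  ∀ (p : Fin 2 → ℝ) (l s : ℝ) (g : (Fin 2 → ℝ) → ℂ), 0 < l →
    MemLp g 2 (volume.restrict (square p l)) → SpectrumIn L p l g →
    eLpNorm (ext (density p l s g)) (ENNReal.ofReal q) volume ≤
      C * ENNReal.ofReal (l ^ (1 - 4 / q)) * eLpNorm g 2 (volume.restrict (square p l))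

lemma ncard_enc (L : Set (Fin 2 → ℤ)) (R : ℕ) (a n : Fin 2 → ℤ) :
    {w : (Fin 2 → ℤ) × (Fin 2 → ℤ) | w.1 ∈ inBox L R a ∧ w.2 ∈ inBox L R a ∧
      w.1 + w.2 = n}.Finite := by
  have h1 : (Icc a (fun i => a i + R) ×ˢ Icc a (fun i => a i + R) :
      Set ((Fin 2 → ℤ) × (Fin 2 → ℤ))).Finite := (Set.finite_Icc _ _).prod (Set.finite_Icc _ _)
  refine h1.subset ?_
  rintro w ⟨h2, h3, -⟩
  exact ⟨⟨fun i => (h2.2 i).1, fun i => (h2.2 i).2.le⟩, ⟨fun i => (h3.2 i).1, fun i => (h3.2 i).2.le⟩⟩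

open Pool.Agent.Y183.LS in
lemma wave_ec (k : Fin 2 → ℤ) (v : Fin 2 → ℝ) : wave k v = ec (dt (izA 1 k) v) := by
  unfold wave ec dt izA
  congr 1
  push_cast
  rw [Finset.mul_sum, Finset.mul_sum]
  apply Finset.sum_congr rfl
  intro i _
  ring

lemma core (q κ : ℝ) (hq : 3 < q) (hκ : 0 ≤ κ) (h : κ < 1 - 3 / q) : ∃ C : ℝ≥0, 
    ∀ (K : ℝ≥0) (L : Set (Fin 2 → ℤ)), 
    (∀ R : ℕ, 1 ≤ R → ∀ a, Pool.Agent.Y183.LS.LQ q (K * (R : ℝ≥0) ^ κ)
      (Pool.Agent.Q89.AS.inBox L R a)) → ExtensionEstimate L q (C * (1 + K)) := by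
  have hq0 : 0 < q := by linarith
  obtain ⟨C, hC⟩ := Pool.Agent.Q89.AS.mainP 2 q κ (by linarith) hκ (by
    have h1 : κ * q < (1 - 3 / q) * q := mul_lt_mul_of_pos_right h hq0
    have h2 : (1 - 3 / q) * q = q - 3 := by field_simp
    push_cast
    linarith)
  refine ⟨C, fun K L hL p l s g hl hg hs => ?_⟩
  have h1 := hC K L hL p l s g hl hg hs
  have e1 : ((2 : ℕ) : ℝ) / 2 - (((2 : ℕ) : ℝ) + 2) / q = 1 - 4 / q := by
    push_cast
    ring
  rw [e1] at h1
  push_cast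
  exact h1

/-- **Extension estimates for spectra with small local additive energy.**

1. Let `q > 3` and `0 ≤ κ < 1 - 3/q`. There is `C` such that for every `Λ ⊆ ℤ²` whose part in any
square of side `R` is a `Λ(q)` set with constant `K R^κ`, the extension estimate holds with the
constant `C (1 + K)`.

2. Let `0 ≤ α < 2`, `2(3-α)/(2-α) < q ≤ 4` and `A` real. There is `C` such that the extension
estimate holds with the constant `C` for every `Λ ⊆ ℤ²` such that every vector is, in each square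
of side `R`, a sum of two points of `Λ` in at most `A R^α` ways. 

3. The hypothesis of 2 holds with `α = 0`, `A = 2` for `Λ = {(n, n²)}`, and it holds with `A, α`
whenever `Λ` has at most `A R^α` points in every square of side `R`. -/
theorem result :
    (∀ q κ : ℝ, 3 < q → 0 ≤ κ → κ < 1 - 3 / q → ∃ C : ℝ≥0, ∀ (K : ℝ≥0) (L : Set (Fin 2 → ℤ)),
      LambdaGrowth q K κ L → ExtensionEstimate L q (C * (1 + K))) ∧
    (∀ q α A : ℝ, 0 ≤ α → α < 2 → 2 * (3 - α) / (2 - α) < q → q ≤ 4 → ∃ C : ℝ≥0,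
      ∀ L : Set (Fin 2 → ℤ), AdditiveGrowth L A α → ExtensionEstimate L q C) ∧
    AdditiveGrowth {k | k 1 = k 0 ^ 2} 2 0 ∧
    (∀ (L : Set (Fin 2 → ℤ)) (A α : ℝ), (∀ R : ℕ, 1 ≤ R → ∀ a : Fin 2 → ℤ,
      (((inBox L R a).ncard : ℕ) : ℝ) ≤ A * (R : ℝ) ^ α) → AdditiveGrowth L A α) := by
  refine ⟨?_, ?_, ?_, ?_⟩
  · intro q κ hq hκ h
    have hq0 : 0 < q := by linarith
    obtain ⟨C, hC⟩ := core q κ hq hκ h
    refine ⟨C, fun K L hL => hC K L ?_⟩
    intro R hR a F hF c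
    have h1 := hL R hR a F hF c
    have h2 : ∀ v, ∑ k ∈ F, c k * wave k v =
        Pool.Agent.Y183.LS.tri F (Pool.Agent.Y183.LS.izA 1) c v := by
      intro v
      unfold Pool.Agent.Y183.LS.tri
      simp only [wave_ec]
    simp only [h2] at h1
    refine h1.trans (le_of_eq ?_)
    rw [ENNReal.mul_rpow_of_nonneg _ _ hq0.le, ← ENNReal.rpow_mul]
    push_cast
    rw [ENNReal.coe_rpow_of_nonneg _ hκ]
    congr 2
    ring
  · intro q α A hα hα2 hqα hq4
    have h2α : 0 < 2 - α := by linarith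
    have h1 : 2 * (3 - α) < q * (2 - α) := (div_lt_iff₀ h2α).mp hqα
    have hq : 3 < q := by nlinarith
    have hq0 : 0 < q := by linarith
    set κ : ℝ := α * (1 / 2 - 1 / q) with hκ
    have hκq : κ * q = α * ((q - 2) / 2) := by
      rw [hκ]
      field_simp
    have hκ0 : 0 ≤ κ := by
      rw [hκ]
      apply mul_nonneg hα
      have : 1 / q < 1 / 2 := one_div_lt_one_div_of_lt (by norm_num) (by linarith)
      linarith
    obtain ⟨C, hC⟩ := core q κ hq hκ0 (by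
      have h3 : κ * q < q - 3 := by
        rw [hκq]
        nlinarith
      have h4 : 1 - 3 / q = (q - 3) / q := by field_simp
      rw [h4, lt_div_iff₀ hq0]
      exact h3)
    set K : ℝ≥0 := (4 * (Real.toNNReal A) ^ ((q - 2) / 2)) ^ (1 / q) with hK
    refine ⟨C * (1 + K), fun L hL => hC K L ?_⟩
    intro R hR a
    set r : ℕ := ⌊A * (R : ℝ) ^ α⌋₊ with hr
    apply Pool.Agent.Q89.AS.LQ_rep2 q (by linarith) hq4 _ r
    · intro n
      have h5 := hL R hR a n
      have h6 : {w : (Fin 2 → ℤ) × (Fin 2 → ℤ) | w.1 ∈ inBox L R a ∧ w.2 ∈ inBox L R a ∧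
          w.1 + w.2 = n}.ncard ≤ r := Nat.le_floor h5
      have h7 := (ncard_enc L R a n).cast_ncard_eq
      have h8 : {w : (Fin 2 → ℤ) × (Fin 2 → ℤ) | w.1 ∈ inBox L R a ∧ w.2 ∈ inBox L R a ∧
          w.1 + w.2 = n}.encard ≤ r := by
        rw [← h7]
        exact_mod_cast h6
      exact h8
    · have hR1 : (1 : ℝ) ≤ R := by exact_mod_cast hR
      have h9 : (r : ℝ≥0∞) ≤ (Real.toNNReal A : ℝ≥0∞) * (R : ℝ≥0∞) ^ α := by
        have h10 : (r : ℝ) ≤ max A 0 * (R : ℝ) ^ α := by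
          rcases le_total 0 (A * (R : ℝ) ^ α) with h0 | h0
          · refine (Nat.floor_le h0).trans ?_
            gcongr
            exact le_max_left _ _
          · rw [hr, Nat.floor_of_nonpos h0]
            push_cast
            positivity
        have h11 : ENNReal.ofReal (r : ℝ) ≤ ENNReal.ofReal (max A 0 * (R : ℝ) ^ α) :=
          ENNReal.ofReal_le_ofReal h10
        rw [ENNReal.ofReal_natCast, ENNReal.ofReal_mul (by positivity)] at h11
        refine h11.trans (le_of_eq ?_)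
        congr 1
        · have e9 : Real.toNNReal (max A 0) = Real.toNNReal A := NNReal.eq (by
            rw [Real.coe_toNNReal', Real.coe_toNNReal', max_eq_left (le_max_right _ _)])
          rw [ENNReal.ofReal, e9]
        · rw [← ENNReal.ofReal_rpow_of_nonneg (by positivity) hα, ENNReal.ofReal_natCast]
      have e0 : ((2 : ℝ≥0∞) ^ 2) = 4 := by norm_num
      have hq2 : 0 ≤ (q - 2) / 2 := by linarith
      rw [e0]
      calc (4 : ℝ≥0∞) * (r : ℝ≥0∞) ^ ((q - 2) / 2) ≤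
          4 * ((Real.toNNReal A : ℝ≥0∞) * (R : ℝ≥0∞) ^ α) ^ ((q - 2) / 2) := by gcongr
        _ = _ := by
            push_cast
            rw [ENNReal.coe_rpow_of_nonneg _ hκ0, ENNReal.mul_rpow_of_nonneg _ _ hq0.le,
              ← ENNReal.rpow_mul, hκq, hK, ENNReal.coe_rpow_of_nonneg _ (by positivity),
              ← ENNReal.rpow_mul, one_div_mul_cancel hq0.ne', ENNReal.rpow_one]
            push_cast
            rw [ENNReal.coe_rpow_of_nonneg _ hq2, ENNReal.mul_rpow_of_nonneg _ _ hq2,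
              ← ENNReal.rpow_mul, mul_assoc]
  · intro R hR a n
    rw [Real.rpow_zero, mul_one]
    set T : Set ((Fin 2 → ℤ) × (Fin 2 → ℤ)) := {w | w.1 ∈ inBox {k | k 1 = k 0 ^ 2} R a ∧
      w.2 ∈ inBox {k | k 1 = k 0 ^ 2} R a ∧ w.1 + w.2 = n} with hT
    have h1 : T.ncard ≤ 2 := by
      rcases T.eq_empty_or_nonempty with h0 | ⟨w, hw⟩
      · rw [h0, Set.ncard_empty]
        norm_num
      · have h2 : T ⊆ {w, (w.2, w.1)} := by
          intro v hv
          obtain ⟨⟨a1, -⟩, ⟨a2, -⟩, a3⟩ := hw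
          obtain ⟨⟨b1, -⟩, ⟨b2, -⟩, b3⟩ := hv
          have a1' : w.1 1 = w.1 0 ^ 2 := a1
          have a2' : w.2 1 = w.2 0 ^ 2 := a2
          have b1' : v.1 1 = v.1 0 ^ 2 := b1
          have b2' : v.2 1 = v.2 0 ^ 2 := b2
          have c0 : v.1 0 + v.2 0 = w.1 0 + w.2 0 := congrFun (b3.trans a3.symm) 0
          have c1 : v.1 1 + v.2 1 = w.1 1 + w.2 1 := congrFun (b3.trans a3.symm) 1
          rw [a1', a2', b1', b2'] at c1
          have c2 : (v.1 0 - w.1 0) * (v.1 0 - w.2 0) = 0 := by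
            have c3 : v.2 0 = w.1 0 + w.2 0 - v.1 0 := by linarith
            rw [c3] at c1
            nlinarith
          have ext2 : ∀ x y : Fin 2 → ℤ, x 1 = x 0 ^ 2 → y 1 = y 0 ^ 2 → x 0 = y 0 → x = y := by
            intro x y hx hy h
            ext i
            fin_cases i
            · exact h
            · show x 1 = y 1
              rw [hx, hy, h]
          rcases mul_eq_zero.mp c2 with h | h
          · left
            apply Prod.ext
            · exact ext2 _ _ b1' a1' (by linarith)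
            · exact ext2 _ _ b2' a2' (by linarith)
          · right
            apply Prod.ext
            · exact ext2 _ _ b1' a2' (by simp only; linarith)
            · exact ext2 _ _ b2' a1' (by simp only; linarith)
        refine (Set.ncard_le_ncard h2 (by simp)).trans ?_
        refine (Set.ncard_insert_le _ _).trans ?_
        rw [Set.ncard_singleton]
    exact_mod_cast h1
  · intro L A α h R hR a n
    refine le_trans ?_ (h R hR a)
    have hfin : (inBox L R a).Finite := (Set.finite_Icc a (fun i => a i + R)).subset fun k hk =>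
      ⟨fun i => (hk.2 i).1, fun i => (hk.2 i).2.le⟩
    have h1 : {w : (Fin 2 → ℤ) × (Fin 2 → ℤ) | w.1 ∈ inBox L R a ∧ w.2 ∈ inBox L R a ∧
        w.1 + w.2 = n}.ncard ≤ (inBox L R a).ncard := by
      refine Set.ncard_le_ncard_of_injOn (fun w => w.1) ?_ ?_ hfin
      · rintro w ⟨h2, -, -⟩
        exact h2
      · rintro w ⟨-, -, h2⟩ w' ⟨-, -, h3⟩ h4
        simp only at h4
        apply Prod.ext h4
        have h5 : w.1 + w.2 = w'.1 + w'.2 := h2.trans h3.symm
        rw [h4] at h5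
        exact add_left_cancel h5
    exact_mod_cast h1

end Pool.Agent.Results.MP_5ab805_an.AdditiveSpectrum
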