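import Mathlib
import Pool.Agent.Q85.LR.F
set_option autoImplicit false

/-! The extension operator of the paraboloid in `ℝ³` on functions of low rank: for every `q > 3`
the `L^q` norm of `Ef` is at most `C r^κ ‖f‖_{L³}` if `f` is a sum of `r` products of a function of
`x·e` and a function of `x·e^⊥`, for every `κ > 6/q - 3/2`. -/

namespace Pool.Agent.Results.MP_5ab805_an.LowRank

open MeasureTheory Set Complex
open scoped ENNReal NNReal InnerProductSpace

/-- The Fourier extension operator of the paraboloid in `ℝ³`, in the normalization of the problem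
(functions on `U` are extended by zero). -/
noncomputable def ext (f : ℝ × ℝ → ℂ) (ξ : (ℝ × ℝ) × ℝ) : ℂ :=
  ∫ x : ℝ × ℝ, cexp (-(I * ((x.1 * ξ.1.1 + x.2 * ξ.1.2 + (x.1 ^ 2 + x.2 ^ 2) * ξ.2 : ℝ) : ℂ))) * f x

/-- The interval `[-1/2, 1/2]`. -/
def J : Set ℝ := Icc (-1 / 2) (1 / 2)

/-- In the coordinates `(u, v) = (c x₁ + s x₂, -s x₁ + c x₂)` the function `h` is zero outside the
square `|u| ≤ 1/2`, `|v| ≤ 1/2`, and in this square it is a sum of `r` products of a measurable
function of `u` and a measurable function of `v` (almost everywhere). -/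
def RankLE (r : ℕ) (c s : ℝ) (h : ℝ × ℝ → ℂ) : Prop :=
  ∃ α β : Fin r → ℝ → ℂ, (∀ i, Measurable (α i)) ∧ (∀ i, Measurable (β i)) ∧
    ∀ᵐ x : ℝ × ℝ, h x = (J ×ˢ J).indicator (fun z => ∑ i, α i z.1 * β i z.2)
      (c * x.1 + s * x.2, -s * x.1 + c * x.2)

open Pool.Agent.Q85.HL Pool.Agent.Q85.LR in
theorem result (q κ : ℝ) (hq : 3 < q) (hκ : 0 < κ) (hκ' : 6 / q - 3 / 2 < κ) : ∃ C : ℝ≥0,
    ∀ (r : ℕ → ℕ) (c s : ℕ → ℝ) (h : ℕ → ℝ × ℝ → ℂ) (f : ℝ × ℝ → ℂ),
    (∀ k, 1 ≤ r k) → (∀ k, c k ^ 2 + s k ^ 2 = 1) →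
    (∀ k, RankLE (r k) (c k) (s k) (h k)) → (∀ᵐ x, f x = ∑' k, h k x) →
    eLpNorm (ext f) (ENNReal.ofReal q) volume ≤
      C * ∑' k, ENNReal.ofReal ((r k : ℝ) ^ κ) * eLpNorm (h k) 3 volume := by
  obtain ⟨C, hC⟩ := lowrank q κ hq hκ hκ'
  refine ⟨C, ?_⟩
  intro r c s h f hr hcs hrk hf
  choose α β hα hβ hh using hrk
  set u : ∀ k, ℝ → EU (r k) := fun k x => WithLp.toLp 2 fun i => (starRingEnd ℂ) (α k i x) with hu
  set v : ∀ k, ℝ → EU (r k) := fun k x => WithLp.toLp 2 fun i => β k i x with hv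
  have hum : ∀ k, StronglyMeasurable (u k) := by
    intro k
    apply (PiLp.continuous_toLp 2 _).comp_stronglyMeasurable
    apply Measurable.stronglyMeasurable
    exact measurable_pi_iff.2 fun i => Complex.continuous_conj.measurable.comp (hα k i)
  have hvm : ∀ k, StronglyMeasurable (v k) := by
    intro k
    apply (PiLp.continuous_toLp 2 _).comp_stronglyMeasurable
    apply Measurable.stronglyMeasurable
    exact measurable_pi_iff.2 fun i => hβ k i
  have hin : ∀ k x y, ⟪u k x, v k y⟫_ℂ = ∑ i, α k i x * β k i y := by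
    intro k x y
    rw [PiLp.inner_apply]
    apply Finset.sum_congr rfl
    intro i _
    rw [hu, hv]
    simp only [RCLike.inner_apply, RCLike.conj_conj]
    ring
  have hkn : ∀ k (x : ℝ × ℝ), kn (u k) (v k) (rot (c k) (s k) x) =
      (J ×ˢ J).indicator (fun z => ∑ i, α k i z.1 * β k i z.2)
        (c k * x.1 + s k * x.2, -s k * x.1 + c k * x.2) := by
    intro k x
    have e1 : kn (u k) (v k) = (J ×ˢ J).indicator (fun z => ∑ i, α k i z.1 * β k i z.2) := by
      unfold kn
      simp only [hin]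
      rfl
    rw [e1]
    rfl
  have h1 := hC r c s u v f hr hcs hum hvm (by
    filter_upwards [hf, ae_all_iff.2 hh] with x hx hx2
    rw [hx]
    apply tsum_congr
    intro k
    rw [hx2 k, hkn])
  have h2 : ∀ k, eLpNorm (kn (u k) (v k)) 3 volume = eLpNorm (h k) 3 volume := by
    intro k
    have e1 : h k =ᵐ[volume] kn (u k) (v k) ∘ rot (c k) (s k) := by
      filter_upwards [hh k] with x hx
      rw [hx, Function.comp, hkn]
    rw [eLpNorm_congr_ae e1]
    exact (eLpNorm_comp_measurePreserving (kn_meas (hum k) (hvm k)).aestronglyMeasurable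
      (rot_mp (hcs k))).symm
  simp only [h2] at h1
  exact h1

end Pool.Agent.Results.MP_5ab805_an.LowRank
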