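import Mathlib
import Pool.Agent.Q97.RS.Par3
import Pool.Agent.Q85.HL.M
set_option autoImplicit false

/-!
# The extension conjecture for the paraboloid in `ℝ³`: a majorant principle on structured sets

Let `q > 3`, `p > q/(q-2)` and let `g ≥ 0` be a function on the plane which is a sum of functions
of the form `⟨a_k(x·e_k), b_k(x·e_k')⟩`, with `a_k`, `b_k` in `L^p([-1/2,1/2]; H)`, `H` a Hilbert space, and `(e_k, e_k')`
orthonormal frames, `∑ ‖a_k‖_p ‖b_k‖_p ≤ W`. The simplest example is a product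
`g(x) = α(x₁) β(x₂)`, or a (weighted) sum of such products in different frames.

We prove that for EVERY measurable `f` with `|f| ≤ g`, without any other assumption (arbitrary
phases, no smoothness, no structure), the extension `F = Ef` satisfies

* `∫∫ |F(w+ξ-η)|² Φ(ξ) Φ(η) dξ dη ≤ C W² ‖Φ‖²_{q'}`, `w ∈ ℝ³`, `Φ ≥ 0`;
* `|B| ∫_S |F|² ≤ C W² |S+B|^{2-2/q}` for all sets `S`, `B`;
* if `|F| ≥ l` on `S`, the additive energy of `S` is at most `C l^{-2} W² |S|^{3-2/q}`;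
* `∫ |F| Φ ≤ C K^{3/2} W ‖Φ‖_{q'}`, the bound that the extension conjecture predicts, for all test
  functions `Φ` whose superlevel sets `{Φ > t}` have a sum set with a set of comparable measure
  which is at most `K` times larger.
-/

namespace Pool.Agent.Results.MP_5ab805_an.MajorantPrinciple

open MeasureTheory Set Complex
open scoped ENNReal NNReal InnerProductSpace Pointwise

/-- The Fourier extension operator of the paraboloid in `ℝ³`, in the normalization of the problem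
(functions on `U` are extended by zero). -/
noncomputable def ext (f : ℝ × ℝ → ℂ) (ξ : (ℝ × ℝ) × ℝ) : ℂ :=
  ∫ x : ℝ × ℝ, cexp (-(I * ((x.1 * ξ.1.1 + x.2 * ξ.1.2 + (x.1 ^ 2 + x.2 ^ 2) * ξ.2 : ℝ) : ℂ))) * f x

/-- The interval `[-1/2, 1/2]`. -/
def J : Set ℝ := Icc (-1 / 2) (1 / 2)

/-- The `L^p` norm on `[-1/2, 1/2]` of a function with values in a Hilbert space. -/
noncomputable def norm {H : Type} [NormedAddCommGroup H] (p : ℝ) (a : ℝ → H) : ℝ≥0∞ :=
  eLpNorm a (ENNReal.ofReal p) (volume.restrict J)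

/-- `⟪a(u), b(v)⟫` with `(u, v)` the coordinates `(c x₁ + s x₂, -s x₁ + c x₂)` of `x` in a rotated
frame, restricted to `|u| ≤ 1/2`, `|v| ≤ 1/2`. -/
noncomputable def kernel {H : Type} [NormedAddCommGroup H] [InnerProductSpace ℂ H] (a b : ℝ → H)
    (c s : ℝ) (x : ℝ × ℝ) : ℂ :=
  (J ×ˢ J).indicator (fun z => ⟪a z.1, b z.2⟫_ℂ) (c * x.1 + s * x.2, -s * x.1 + c * x.2)

/-- All the functions `a_k` are in `L^p([-1/2,1/2]; H)`. -/
def InLp {H : Type} [NormedAddCommGroup H] (p : ℝ) (a : ℕ → ℝ → H) : Prop :=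
  ∀ k, StronglyMeasurable (a k) ∧ norm p (a k) < ⊤

/-- `g` is measurable and `g(x) = ∑_k ⟪a_k, b_k⟫` in the frames given by `c_k`, `s_k`,
`c_k² + s_k² = 1`, for almost every `x`. -/
def IsSum {H : Type} [NormedAddCommGroup H] [InnerProductSpace ℂ H] (a b : ℕ → ℝ → H)
    (c s : ℕ → ℝ) (g : ℝ × ℝ → ℝ≥0) : Prop :=
  Measurable g ∧ (∀ k, c k ^ 2 + s k ^ 2 = 1) ∧
    ∀ᵐ x, ((g x : ℝ) : ℂ) = ∑' k, kernel (a k) (b k) (c k) (s k) x

/-- `f` is measurable and `|f| ≤ g` almost everywhere. -/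
def Dominated (f : ℝ × ℝ → ℂ) (g : ℝ × ℝ → ℝ≥0) : Prop :=
  AEStronglyMeasurable f volume ∧ ∀ᵐ x, ‖f x‖ ≤ g x

/-- `ℝ³` -/
abbrev R3 := (ℝ × ℝ) × ℝ

/-- the triples `(a, b, c)` of elements of `S` such that `a + b - c` is also in `S` -/
def triples (S : Set R3) : Set (R3 × R3 × R3) :=
  {p | p.1 ∈ S ∧ p.2.1 ∈ S ∧ p.2.2 ∈ S ∧ p.1 + p.2.1 - p.2.2 ∈ S}

/-- the additive energy of a set: the measure of the set of the triples `(a, b, c)` of its elements
such that `a + b - c` is also an element -/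
noncomputable def energy (S : Set R3) : ℝ≥0∞ :=
  (volume.prod (volume.prod volume)) (triples S)

/-- The superlevel sets `{Φ > t}` have additive structure: for each `t` there is a set `B`
(for instance `{Φ > t}` itself, or its set of negatives) of at least comparable measure such that
the sum set `{Φ > t} + B` is of comparable measure. -/
def Structured (K : ℝ≥0) (Φ : R3 → ℝ≥0) : Prop :=
  ∀ t : ℝ≥0, ∃ B : Set R3, volume {x | t < Φ x} ≤ K * volume B ∧
    volume ({x | t < Φ x} + B) ≤ K * volume {x | t < Φ x}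

/-- the two-point inequality with exponent `q` and constant `C` -/
def TwoPointBound (q : ℝ) (C : ℝ≥0∞) (F : R3 → ℂ) : Prop :=
  ∀ (w : R3) (Φ : R3 → ℝ≥0), Measurable Φ →
    ∫⁻ ξ, ∫⁻ η, ‖F (w + ξ - η)‖ₑ ^ 2 * (Φ ξ * Φ η) ≤
      C * (∫⁻ x, (Φ x : ℝ≥0∞) ^ (q / (q - 1))) ^ (2 - 2 / q)

/-- `|B| ∫_S |F|² ≤ C |S+B|^{2-2/q}` -/
def SumSetBound (q : ℝ) (C : ℝ≥0∞) (F : R3 → ℂ) : Prop :=
  ∀ S B : Set R3, MeasurableSet S →
    volume B * ∫⁻ ξ in S, ‖F ξ‖ₑ ^ 2 ≤ C * volume (S + B) ^ (2 - 2 / q)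

/-- `l²` times the additive energy of a set on which `|F| ≥ l` is at most `C |S|^{3-2/q}` -/
def EnergyBound (q : ℝ) (C : ℝ≥0∞) (F : R3 → ℂ) : Prop :=
  ∀ (l : ℝ≥0∞) (S : Set R3), MeasurableSet S → (∀ ξ ∈ S, l ≤ ‖F ξ‖ₑ) →
    l ^ 2 * energy S ≤ C * volume S ^ (3 - 2 / q)

/-- `∫ |F| Φ ≤ C K^{3/2} ‖Φ‖_{q'}` for test functions with structured superlevel sets -/
def StructuredBound (q : ℝ) (C : ℝ≥0∞) (F : R3 → ℂ) : Prop :=
  ∀ (K : ℝ≥0) (Φ : R3 → ℝ≥0), 1 ≤ K → Measurable Φ → Structured K Φ →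
    ∫⁻ ξ, ‖F ξ‖ₑ * Φ ξ ≤
      C * (K : ℝ≥0∞) ^ (3 / 2 : ℝ) * (∫⁻ ξ, (Φ ξ : ℝ≥0∞) ^ (q / (q - 1))) ^ (1 - 1 / q)

/-! ### Proofs -/

open Q97.RS (TP CM CM_pos par3_majorant)
open Pool.Agent.Q85.HL (EP kn kn_eq Nm Nm_one ind_int rot rot_mp rot_meas rot_inj Ih)

instance inst_right : (volume : Measure ((ℝ × ℝ) × ℝ)).IsAddRightInvariant := by
  have h : (Measure.prod (Measure.prod (volume : Measure ℝ) (volume : Measure ℝ))
      (volume : Measure ℝ)).IsAddLeftInvariant := by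
    have h1 : (Measure.prod (volume : Measure ℝ) (volume : Measure ℝ)).IsAddLeftInvariant :=
      inferInstance
    have h4 : SFinite (Measure.prod (volume : Measure ℝ) (volume : Measure ℝ)) := inferInstance
    exact Measure.prod.instIsAddLeftInvariant (G := ℝ × ℝ) (H := ℝ)
  have h2 : (volume : Measure ((ℝ × ℝ) × ℝ)).IsAddLeftInvariant := h
  exact IsAddLeftInvariant.isAddRightInvariant

theorem ext_eq (f : ℝ × ℝ → ℂ) : ext f = EP f := rfl

theorem g_int {H : Type} [NormedAddCommGroup H] [InnerProductSpace ℂ H] [CompleteSpace H]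
    {p : ℝ} (hp : 1 ≤ p) {W : ℝ≥0} {g : ℝ × ℝ → ℝ≥0} {a b : ℕ → ℝ → H} {c s : ℕ → ℝ}
    (haL : InLp p a) (hbL : InLp p b) (hS : IsSum a b c s g)
    (hW : ∑' k, norm p (a k) * norm p (b k) ≤ W) :
    ∫⁻ x, (g x : ℝ≥0∞) ≤ W := by
  obtain ⟨hgm, hcs, hgk⟩ := hS
  have ha : ∀ k, StronglyMeasurable (a k) := fun k => (haL k).1
  have hb : ∀ k, StronglyMeasurable (b k) := fun k => (hbL k).1
  have hNa : ∀ k, norm p (a k) < ⊤ := fun k => (haL k).2
  have hNb : ∀ k, norm p (b k) < ⊤ := fun k => (hbL k).2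
  refine le_trans ?_ hW
  have ia : ∀ k, Integrable (Ih.indicator (a k)) := fun k => ind_int hp (ha k) (hNa k).ne
  have ib : ∀ k, Integrable (Ih.indicator (b k)) := fun k => ind_int hp (hb k) (hNb k).ne
  have hkL : ∀ k, ∫⁻ x, ‖kn (a k) (b k) x‖ₑ ≤ norm p (a k) * norm p (b k) := by
    intro k
    calc ∫⁻ x, ‖kn (a k) (b k) x‖ₑ
        ≤ ∫⁻ x : ℝ × ℝ, ‖Ih.indicator (a k) x.1‖ₑ * ‖Ih.indicator (b k) x.2‖ₑ := by
          apply lintegral_mono
          intro x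
          rw [kn_eq]
          simp only
          rw [← ofReal_norm, ← ofReal_norm, ← ofReal_norm, ← ENNReal.ofReal_mul (norm_nonneg _)]
          exact ENNReal.ofReal_le_ofReal (norm_inner_le_norm _ _)
      _ = (∫⁻ u, ‖Ih.indicator (a k) u‖ₑ) * ∫⁻ u, ‖Ih.indicator (b k) u‖ₑ := by
          rw [Measure.volume_eq_prod]
          exact lintegral_prod_mul (ia k).aestronglyMeasurable.enorm
            (ib k).aestronglyMeasurable.enorm
      _ ≤ norm p (a k) * norm p (b k) := mul_le_mul' (Nm_one hp (ha k)) (Nm_one hp (hb k))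
  have emb : ∀ k, MeasurableEmbedding (rot (c k) (s k)) := fun k =>
    (rot_meas _ _).measurableEmbedding (rot_inj (hcs k))
  have hkn : ∀ k, AEStronglyMeasurable (kn (a k) (b k)) volume := by
    intro k
    rw [kn_eq, Measure.volume_eq_prod]
    exact ((ia k).aestronglyMeasurable.comp_fst).inner ((ib k).aestronglyMeasurable.comp_snd)
  have hkr : ∀ k, AEMeasurable (fun x => ‖kn (a k) (b k) (rot (c k) (s k) x)‖ₑ) volume := by
    intro k
    exact ((hkn k).comp_measurePreserving (rot_mp (hcs k))).enorm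
  have hgL : ∀ k, ∫⁻ x, ‖kn (a k) (b k) (rot (c k) (s k) x)‖ₑ ≤ norm p (a k) * norm p (b k) := by
    intro k
    refine le_trans (le_of_eq ?_) (hkL k)
    exact (rot_mp (hcs k)).lintegral_comp_emb (emb k) (fun x => ‖kn (a k) (b k) x‖ₑ)
  calc ∫⁻ x, (g x : ℝ≥0∞)
      ≤ ∫⁻ x, ∑' k, ‖kn (a k) (b k) (rot (c k) (s k) x)‖ₑ := by
        refine lintegral_mono_ae ?_
        filter_upwards [hgk] with x hx
        have h1 : (g x : ℝ≥0∞) = ‖((g x : ℝ) : ℂ)‖ₑ := by
          rw [← ofReal_norm, Complex.norm_real, Real.norm_eq_abs,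
            abs_of_nonneg (NNReal.coe_nonneg _), ENNReal.ofReal_coe_nnreal]
        rw [h1, hx]
        exact enorm_tsum_le_tsum_enorm
    _ = ∑' k, ∫⁻ x, ‖kn (a k) (b k) (rot (c k) (s k) x)‖ₑ := lintegral_tsum hkr
    _ ≤ ∑' k, norm p (a k) * norm p (b k) := ENNReal.tsum_le_tsum hgL

theorem single (q p : ℝ) (hq : 3 < q) (hp : q / (q - 2) < p) : ∃ C : ℝ, 0 < C ∧
    ∀ (H : Type) [NormedAddCommGroup H] [InnerProductSpace ℂ H] [CompleteSpace H]
      (a b : ℕ → ℝ → H) (c s : ℕ → ℝ) (g : ℝ × ℝ → ℝ≥0) (W : ℝ≥0), InLp p a → InLp p b →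
      IsSum a b c s g → ∑' k, norm p (a k) * norm p (b k) ≤ W → 0 < W →
      ∀ f : ℝ × ℝ → ℂ, Dominated f g →
      Measurable (ext f) ∧ TP volume q (ext f) (ENNReal.ofReal (C * (W : ℝ) ^ 2)) := by
  obtain ⟨C1, hC1⟩ := Pool.Agent.Q85.HL.main q p hq hp
  have hq2 : 2 < q := by linarith
  have hq0 : 0 < q := by linarith
  have hp1 : 1 < p := by
    refine lt_trans ?_ hp
    rw [one_lt_div (by linarith)]
    linarith
  have hCM := CM_pos hq2
  refine ⟨CM q * ((C1 : ℝ) + 1) ^ 2, by positivity,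
    fun H _ _ _ a b c s g W haL hbL hS hWk hW f hff => ?_⟩
  obtain ⟨hf, hfg⟩ := hff
  have hgi := g_int hp1.le haL hbL hS hWk
  obtain ⟨hgm, hcs, hgk⟩ := hS
  have ha : ∀ k, StronglyMeasurable (a k) := fun k => (haL k).1
  have hb : ∀ k, StronglyMeasurable (b k) := fun k => (hbL k).1
  have hNa : ∀ k, norm p (a k) < ⊤ := fun k => (haL k).2
  have hNb : ∀ k, norm p (b k) < ⊤ := fun k => (hbL k).2
  have hmain := hC1 H a b c s (fun x => ((g x : ℝ) : ℂ)) hcs ha hb (fun k => (hNa k).ne)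
    (fun k => (hNb k).ne) hgk
  have hN : eLpNorm (EP fun x => ((g x : ℝ) : ℂ)) (ENNReal.ofReal q) volume ≤ C1 * W :=
    hmain.trans (mul_le_mul_right hWk _)
  set L : ℝ := ((C1 : ℝ) + 1) * W with hL
  have hWr : (0 : ℝ) < W := by exact_mod_cast hW
  have hLpos : 0 < L := by positivity
  have hgint : Integrable (fun x => ((g x : ℝ) : ℂ)) := by
    refine ⟨(Complex.measurable_ofReal.comp hgm.coe_nnreal_real).aestronglyMeasurable, ?_⟩
    refine lt_of_le_of_lt (lintegral_mono fun x => ?_) (lt_of_le_of_lt hgi ENNReal.coe_lt_top)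
    rw [← ofReal_norm, Complex.norm_real, Real.norm_eq_abs,
            abs_of_nonneg (NNReal.coe_nonneg _), ENNReal.ofReal_coe_nnreal]
  have hEm : Measurable (EP fun x => ((g x : ℝ) : ℂ)) := (Pool.Agent.Q85.HL.EP_cont hgint).measurable
  have hint : ∫⁻ z, ‖EP (fun x => ((g x : ℝ) : ℂ)) z‖ₑ ^ q ≤ ENNReal.ofReal (L ^ q) := by
    have h0 : ENNReal.ofReal q ≠ 0 := by simpa using hq0
    rw [eLpNorm_eq_lintegral_rpow_enorm_toReal h0 ENNReal.ofReal_ne_top,
      ENNReal.toReal_ofReal hq0.le] at hN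
    have h1 := ENNReal.rpow_le_rpow hN hq0.le
    rw [← ENNReal.rpow_mul, one_div_mul_cancel hq0.ne', ENNReal.rpow_one] at h1
    refine h1.trans ?_
    rw [← ENNReal.ofReal_rpow_of_pos hLpos]
    refine ENNReal.rpow_le_rpow ?_ hq0.le
    rw [← ENNReal.coe_mul, ← ENNReal.ofReal_coe_nnreal]
    refine ENNReal.ofReal_le_ofReal ?_
    rw [NNReal.coe_mul, hL]
    exact mul_le_mul_of_nonneg_right (by linarith) hWr.le
  have hw : ∀ t : ℝ, 0 < t → volume {z : (ℝ × ℝ) × ℝ | t < ‖EP (fun x => ((g x : ℝ) : ℂ)) z‖} ≤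
      ENNReal.ofReal ((L / t) ^ q) := by
    intro t ht
    have hs0 : ENNReal.ofReal (t ^ q) ≠ 0 := by
      rw [Ne, ENNReal.ofReal_eq_zero, not_le]
      positivity
    have h3 : ENNReal.ofReal (t ^ q) * volume {z : (ℝ × ℝ) × ℝ | ENNReal.ofReal (t ^ q) ≤
        ‖EP (fun x => ((g x : ℝ) : ℂ)) z‖ₑ ^ q} ≤
        ∫⁻ z, ‖EP (fun x => ((g x : ℝ) : ℂ)) z‖ₑ ^ q :=
      mul_meas_ge_le_lintegral₀ (hEm.enorm.pow_const q).aemeasurable _
    have h4 : {z : (ℝ × ℝ) × ℝ | t < ‖EP (fun x => ((g x : ℝ) : ℂ)) z‖} ⊆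
        {z : (ℝ × ℝ) × ℝ | ENNReal.ofReal (t ^ q) ≤ ‖EP (fun x => ((g x : ℝ) : ℂ)) z‖ₑ ^ q} := by
      intro z hz
      simp only [mem_ofPred_eq] at hz ⊢
      rw [← ENNReal.ofReal_rpow_of_pos ht, ← ofReal_norm]
      exact ENNReal.rpow_le_rpow (ENNReal.ofReal_le_ofReal hz.le) hq0.le
    have h5 : ENNReal.ofReal ((L / t) ^ q) = ENNReal.ofReal (L ^ q) / ENNReal.ofReal (t ^ q) := by
      rw [Real.div_rpow hLpos.le ht.le, ENNReal.ofReal_div_of_pos (by positivity)]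
    rw [h5, ENNReal.le_div_iff_mul_le (Or.inl hs0) (Or.inl ENNReal.ofReal_ne_top), mul_comm]
    exact (mul_le_mul_right (measure_mono h4) _).trans (h3.trans hint)
  obtain ⟨k1, k2⟩ := par3_majorant hq2 hgm (ne_top_of_le_ne_top ENNReal.coe_ne_top hgi) hLpos hw
    hf hfg
  refine ⟨k1, ?_⟩
  rw [ext_eq]
  convert k2 using 1
  congr 1
  rw [hL]
  ring

theorem result (q p : ℝ) (hq : 3 < q) (hp : q / (q - 2) < p) : ∃ C : ℝ≥0,
    ∀ (H : Type) [NormedAddCommGroup H] [InnerProductSpace ℂ H] [CompleteSpace H]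
      (a b : ℕ → ℝ → H) (c s : ℕ → ℝ) (g : ℝ × ℝ → ℝ≥0) (W : ℝ≥0), InLp p a → InLp p b →
      IsSum a b c s g → ∑' k, norm p (a k) * norm p (b k) ≤ W → 0 < W →
      ∀ f : ℝ × ℝ → ℂ, Dominated f g →
      TwoPointBound q (C * W ^ 2) (ext f) ∧ SumSetBound q (C * W ^ 2) (ext f) ∧
      EnergyBound q (C * W ^ 2) (ext f) ∧ StructuredBound q (C * W) (ext f) := by
  have hq2 : 2 < q := by linarith
  have hq0 : 0 < q := by linarith
  have hp1 : 1 < p := by
    refine lt_trans ?_ hp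
    rw [one_lt_div (by linarith)]
    linarith
  have hqp : 2 * p / (p - 1) < q := by
    rw [div_lt_iff₀ (by linarith)] at hp ⊢
    nlinarith
  obtain ⟨q1, h1a, h1b⟩ := exists_between (max_lt hq hqp)
  have h13 : 3 < q1 := lt_of_le_of_lt (le_max_left _ _) h1a
  have h1p : 2 * p / (p - 1) < q1 := lt_of_le_of_lt (le_max_right _ _) h1a
  have h1q : q1 / (q1 - 2) < p := by
    rw [div_lt_iff₀ (by linarith)] at h1p ⊢
    nlinarith
  obtain ⟨C0, hC0, hmain0⟩ := single q p hq hp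
  obtain ⟨C1, hC1, hmain1⟩ := single q1 p h13 h1q
  obtain ⟨C2, hC2, hmain2⟩ := single (q + 1) p (by linarith) (by
    rw [div_lt_iff₀ (by linarith)] at hp ⊢
    nlinarith)
  set r : ℝ := q / (q - 1) with hr
  have hr0 : 0 < r := div_pos (by linarith) (by linarith)
  have hr1 : 1 / r = 1 - 1 / q := by rw [hr]; field_simp
  have ha : 0 < 1 - 1 / q1 := by
    rw [sub_pos, div_lt_one (by linarith)]; linarith
  have hra : r * (1 - 1 / q1) < 1 := by
    have : 1 - 1 / q1 < 1 / r := by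
      rw [hr1]
      have := one_div_lt_one_div_of_lt (by linarith : 0 < q1) h1b
      linarith
    rwa [lt_div_iff₀ hr0, mul_comm] at this
  have hrb : 1 < r * (1 - 1 / (q + 1)) := by
    have : 1 / r < 1 - 1 / (q + 1) := by
      rw [hr1]
      have := one_div_lt_one_div_of_lt hq0 (by linarith : q < q + 1)
      linarith
    rwa [div_lt_iff₀ hr0, mul_comm] at this
  set c2 : ℝ := 1 / (1 - r * (1 - 1 / q1)) + 1 / (r * (1 - 1 / (q + 1)) - 1) with hc2
  have hc2pos : 0 < c2 := add_pos (div_pos one_pos (by linarith)) (div_pos one_pos (by linarith))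
  set Cm : ℝ := max C1 C2 with hCm
  have hCmpos : 0 < Cm := lt_of_lt_of_le hC1 (le_max_left _ _)
  refine ⟨(C0 + c2 * Cm ^ (1 / 2 : ℝ)).toNNReal,
    fun H _ _ _ a b c s g W haL hbL hSum hWk hW f hff => ?_⟩
  have hWr : (0 : ℝ) < W := by exact_mod_cast hW
  obtain ⟨hmeas, hTP⟩ := hmain0 H a b c s g W haL hbL hSum hWk hW f hff
  obtain ⟨-, hTP1⟩ := hmain1 H a b c s g W haL hbL hSum hWk hW f hff
  obtain ⟨-, hTP2⟩ := hmain2 H a b c s g W haL hbL hSum hWk hW f hff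
  have hCle : ENNReal.ofReal (C0 * (W : ℝ) ^ 2) ≤
      ((C0 + c2 * Cm ^ (1 / 2 : ℝ)).toNNReal : ℝ≥0) * (W : ℝ≥0∞) ^ 2 := by
    rw [ENNReal.ofReal_mul hC0.le, ENNReal.ofReal_pow hWr.le, ENNReal.ofReal_coe_nnreal]
    refine mul_le_mul_left ?_ _
    change _ ≤ ENNReal.ofReal _
    exact ENNReal.ofReal_le_ofReal (by have : 0 < c2 * Cm ^ (1 / 2 : ℝ) := by positivity
                                       linarith)
  refine ⟨fun w Φ hΦ => ?_, fun S B hS => ?_, fun l S hS hl => ?_, fun K Φ hK hΦ hS => ?_⟩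
  · have h1 := hTP w Φ hΦ
    refine le_trans (le_of_eq ?_) (h1.trans (mul_le_mul_left hCle _))
    have hΦe : Measurable fun x => (Φ x : ℝ≥0∞) := hΦ.coe_nnreal_ennreal
    have hF2 : Measurable fun v => ‖ext f v‖ₑ ^ 2 := hmeas.enorm.pow_const 2
    have mq : Measurable fun q : ((ℝ × ℝ) × ℝ) × ((ℝ × ℝ) × ℝ) =>
        ‖ext f (w + q.1 - q.2)‖ₑ ^ 2 * ((Φ q.1 : ℝ≥0∞) * Φ q.2) :=
      (hF2.comp ((measurable_const.add measurable_fst).sub measurable_snd)).mul
        ((hΦe.comp measurable_fst).mul (hΦe.comp measurable_snd))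
    rw [lintegral_prod _ mq.aemeasurable]
  · exact (hTP.sumset (by linarith) hmeas hS B).trans (mul_le_mul_left hCle _)
  · exact (hTP.energy_le (by linarith) hS hl).trans (mul_le_mul_left hCle _)
  · have hKpos : (0 : ℝ) < K := by
      have : (1 : ℝ) ≤ K := by exact_mod_cast hK
      linarith
    have hK1 : (1 : ℝ) ≤ K := by exact_mod_cast hK
    set X : ℝ := (Cm * (W : ℝ) ^ 2 * (K : ℝ) ^ (3 : ℝ)) ^ (1 / 2 : ℝ) with hX
    have hXpos : 0 < X := by positivity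
    have hstep : ∀ (q' : ℝ) (C' : ℝ), 3 < q' → 0 < C' → C' ≤ Cm →
        TP volume q' (ext f) (ENNReal.ofReal (C' * (W : ℝ) ^ 2)) →
        ∀ t : ℝ, 0 < t → volume {x | t < (Φ x : ℝ)} ≠ ∞ →
          ∫⁻ x in {x | t < (Φ x : ℝ)}, ‖ext f x‖ₑ ≤
            ENNReal.ofReal X * volume {x | t < (Φ x : ℝ)} ^ (1 - 1 / q') := by
      intro q' C' hq' hC' hC'm hT t ht hfin
      have hset : {x | t.toNNReal < Φ x} = {x | t < (Φ x : ℝ)} := by
        ext x
        simp only [mem_ofPred_eq]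
        rw [Real.toNNReal_lt_iff_lt_coe ht.le]
      have hstr : Q97.RS.StrSet (volume : Measure ((ℝ × ℝ) × ℝ)) K {x | t < (Φ x : ℝ)} := by
        have := hS t.toNNReal
        rw [hset] at this
        exact this
      have h1 := hT.str (by linarith) hmeas
        (measurableSet_lt measurable_const hΦ.coe_nnreal_real) hfin hstr
      refine h1.trans (mul_le_mul_left ?_ _)
      rw [hX, ← ENNReal.ofReal_rpow_of_pos (by positivity)]
      refine ENNReal.rpow_le_rpow ?_ (by norm_num)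
      rw [← ENNReal.ofReal_coe_nnreal (p := K), ENNReal.ofReal_rpow_of_pos hKpos,
        ← ENNReal.ofReal_mul (by positivity)]
      refine ENNReal.ofReal_le_ofReal ?_
      have e1 : (K : ℝ) ^ (3 - 2 / q') ≤ (K : ℝ) ^ (3 : ℝ) := by
        refine Real.rpow_le_rpow_of_exponent_le hK1 ?_
        have : 0 < 2 / q' := by apply div_pos <;> linarith
        linarith
      have e2 : C' * (W : ℝ) ^ 2 ≤ Cm * (W : ℝ) ^ 2 := mul_le_mul_of_nonneg_right hC'm (by positivity)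
      exact mul_le_mul e2 e1 (by positivity) (by positivity)
    have key := Q97.RS.cake_bound (μ := (volume : Measure ((ℝ × ℝ) × ℝ)))
      hr0 ha hra hrb hmeas hΦ X X hXpos hXpos
      (hstep q1 C1 h13 hC1 (le_max_left _ _) hTP1)
      (hstep (q + 1) C2 (by linarith) hC2 (le_max_right _ _) hTP2)
    refine key.trans ?_
    rw [hr1]
    refine mul_le_mul_left ?_ _
    have y1 : X ^ ((1 - 1 / (q + 1) - (1 - 1 / q)) / (1 - 1 / (q + 1) - (1 - 1 / q1))) *
        X ^ ((1 - 1 / q - (1 - 1 / q1)) / (1 - 1 / (q + 1) - (1 - 1 / q1))) = X := by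
      rw [← Real.rpow_add hXpos, ← add_div]
      have : 1 - 1 / (q + 1) - (1 - 1 / q) + (1 - 1 / q - (1 - 1 / q1)) =
          1 - 1 / (q + 1) - (1 - 1 / q1) := by ring
      rw [this, div_self, Real.rpow_one]
      have h6 := one_div_lt_one_div_of_lt (by linarith : 0 < q1) (by linarith : q1 < q + 1)
      intro h7
      linarith
    rw [y1]
    have hXe : X = Cm ^ (1 / 2 : ℝ) * W * (K : ℝ) ^ (3 / 2 : ℝ) := by
      rw [hX, Real.mul_rpow (by positivity) (by positivity),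
        Real.mul_rpow (by positivity) (by positivity), ← Real.rpow_mul hKpos.le,
        ← Real.rpow_natCast, ← Real.rpow_mul hWr.le]
      norm_num
    rw [hXe]
    have z1 : c2 * (Cm ^ (1 / 2 : ℝ) * W * (K : ℝ) ^ (3 / 2 : ℝ)) ≤
        (C0 + c2 * Cm ^ (1 / 2 : ℝ)) * W * (K : ℝ) ^ (3 / 2 : ℝ) := by
      have : 0 < C0 * W * (K : ℝ) ^ (3 / 2 : ℝ) := by positivity
      nlinarith
    refine (ENNReal.ofReal_le_ofReal z1).trans (le_of_eq ?_)
    rw [ENNReal.ofReal_mul (by positivity), ENNReal.ofReal_mul (by positivity),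
      ENNReal.ofReal_coe_nnreal, ← ENNReal.ofReal_rpow_of_pos hKpos, ENNReal.ofReal_coe_nnreal]
    rfl

end Pool.Agent.Results.MP_5ab805_an.MajorantPrinciple
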