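import Mathlib
import Pool.Agent.Q63.Star.Fin11
set_option autoImplicit false

/-!
# The extension operator of the paraboloid in `ℝ³` on functions of controlled variation along rays

The conjectured inequality `‖E f‖_{L^q(ℝ³)} ≤ C ‖g‖_{L^q(ℝ²)}` is proved for **every** `q > 3`, with
`C` depending only on `q`, whenever the increments of `f` along the rays from some point `a` are
dominated by those of a function `g`.  No regularity in the direction of the ray is required.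
-/

namespace Pool.Agent.Results.MP_5ab805_an.VariationAlongRays

open MeasureTheory

/-- The extension operator of the paraboloid in `ℝ³`:
`E f (ξ) = ∫ exp (- i (x₁ ξ₁ + x₂ ξ₂ + (x₁² + x₂²) ξ₃)) f(x) dx`. -/
noncomputable def Ext (f : ℝ × ℝ → ℂ) (ξ : ℝ × ℝ × ℝ) : ℂ :=
  ∫ x : ℝ × ℝ, Complex.exp (-(Complex.I *
    ((x.1 * ξ.1 + x.2 * ξ.2.1 + (x.1 ^ 2 + x.2 ^ 2) * ξ.2.2 : ℝ) : ℂ))) * f x

/-- The point `a + s (x - a)` of the ray from `a` through `x`. -/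
def ray (a x : ℝ × ℝ) (s : ℝ) : ℝ × ℝ := (a.1 + s * (x.1 - a.1), a.2 + s * (x.2 - a.2))

theorem Ext_eq (f : ℝ × ℝ → ℂ) (z : ℂ) (t : ℝ) :
    Ext f (z.re, z.im, t) = Q63.Star.Ex (fun w : ℂ => f (w.re, w.im)) z t := by
  unfold Ext Q63.Star.Ex
  rw [← Complex.volume_preserving_equiv_real_prod.integral_comp
    Complex.measurableEquivRealProd.measurableEmbedding]
  apply integral_congr_ae
  filter_upwards with w
  simp only [Complex.measurableEquivRealProd_apply]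
  unfold Q63.Star.ph Q63.Star.dt
  congr 4
  rw [Complex.normSq_apply]
  ring_nf

theorem Ext_meas (f : ℝ × ℝ → ℂ) (hf : Measurable f) : Measurable (Ext f) := by
  have h : Measurable (fun p : (ℝ × ℝ × ℝ) × (ℝ × ℝ) => Complex.exp (-(Complex.I *
      ((p.2.1 * p.1.1 + p.2.2 * p.1.2.1 + (p.2.1 ^ 2 + p.2.2 ^ 2) * p.1.2.2 : ℝ) : ℂ))) *
      f p.2) := by
    fun_prop
  exact (h.stronglyMeasurable.integral_prod_right' (ν := volume)).measurable

theorem lint_Ext (f : ℝ × ℝ → ℂ) (hf : Measurable f) (q : ℝ) :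
    ∫⁻ ξ : ℝ × ℝ × ℝ, ‖Ext f ξ‖ₑ ^ q =
      ∫⁻ t : ℝ, ∫⁻ z : ℂ, ‖Q63.Star.Ex (fun w : ℂ => f (w.re, w.im)) z t‖ₑ ^ q := by
  have hm : Measurable (fun ξ : ℝ × ℝ × ℝ => ‖Ext f ξ‖ₑ ^ q) := (Ext_meas f hf).enorm.pow_const q
  have h1 := (volume_preserving_prodAssoc (α₁ := ℝ) (β₁ := ℝ) (γ₁ := ℝ)).lintegral_comp hm
  rw [← h1]
  have hm2 : Measurable (fun p : (ℝ × ℝ) × ℝ =>
      ‖Ext f ((MeasurableEquiv.prodAssoc : (ℝ × ℝ) × ℝ ≃ᵐ ℝ × ℝ × ℝ) p)‖ₑ ^ q) :=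
    hm.comp MeasurableEquiv.prodAssoc.measurable
  have h2 : ∫⁻ p : (ℝ × ℝ) × ℝ,
      ‖Ext f ((MeasurableEquiv.prodAssoc : (ℝ × ℝ) × ℝ ≃ᵐ ℝ × ℝ × ℝ) p)‖ₑ ^ q =
      ∫⁻ t : ℝ, ∫⁻ x : ℝ × ℝ, ‖Ext f (x.1, x.2, t)‖ₑ ^ q := by
    rw [Measure.volume_eq_prod (ℝ × ℝ) ℝ, lintegral_prod_symm _ hm2.aemeasurable]
    rfl
  rw [h2]
  apply lintegral_congr
  intro t
  have hm3 : Measurable (fun x : ℝ × ℝ => ‖Ext f (x.1, x.2, t)‖ₑ ^ q) := by
    have h3 : Measurable (fun x : ℝ × ℝ => ((x.1, x.2, t) : ℝ × ℝ × ℝ)) := by fun_prop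
    exact hm.comp h3
  rw [← Complex.volume_preserving_equiv_real_prod.lintegral_comp hm3]
  apply lintegral_congr
  intro z
  simp only [Complex.measurableEquivRealProd_apply]
  rw [Ext_eq]

/-- **Extension estimate in the full conjectured range for functions of controlled variation along
rays.**  For every `q > 3` there is a finite constant `C` such that, for every centre `a`, every
measurable `f : ℝ² → ℂ` and `g : ℝ² → ℝ` vanishing outside the open unit disc about `a` and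
satisfying `|f(x) - f(y)| ≤ g(x) - g(y)` whenever `y = a + s (x - a)` with `s ≥ 1`, one has
`‖E f‖_{L^q(ℝ³)} ≤ C ‖g‖_{L^q(ℝ²)}`. -/
theorem result (q : ℝ) (hq : 3 < q) : ∃ C : ENNReal, C ≠ ⊤ ∧
    ∀ (a : ℝ × ℝ) (f : ℝ × ℝ → ℂ) (g : ℝ × ℝ → ℝ), Measurable f → Measurable g →
      (∀ x : ℝ × ℝ, 1 ≤ (x.1 - a.1) ^ 2 + (x.2 - a.2) ^ 2 → f x = 0 ∧ g x = 0) →
      (∀ x : ℝ × ℝ, ∀ s : ℝ, 1 ≤ s → ‖f x - f (ray a x s)‖ ≤ g x - g (ray a x s)) →
      eLpNorm (Ext f) (ENNReal.ofReal q) volume ≤ C * eLpNorm g (ENNReal.ofReal q) volume := by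
  obtain ⟨C, hC, h⟩ := Q63.Star.varC q hq
  have hq0 : 0 < q := by linarith
  refine ⟨C ^ (1 / q), ENNReal.rpow_ne_top_of_nonneg (by positivity) hC, ?_⟩
  intro a f g hf hg hs hv
  have hcm : Measurable (fun w : ℂ => ((w.re, w.im) : ℝ × ℝ)) :=
    Complex.measurable_re.prodMk Complex.measurable_im
  have key := h (⟨a.1, a.2⟩ : ℂ) (fun w => f (w.re, w.im)) (fun w => g (w.re, w.im))
    (hf.comp hcm) (hg.comp hcm)
    (by
      intro w hw
      apply hs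
      have h1 : (1 : ℝ) ≤ ‖w - ⟨a.1, a.2⟩‖ ^ 2 := one_le_pow₀ hw
      rw [← Complex.normSq_eq_norm_sq, Complex.normSq_apply] at h1
      simp only [Complex.sub_re, Complex.sub_im] at h1
      simp only
      nlinarith)
    (by
      intro w s hs1
      have h1 := hv (w.re, w.im) s hs1
      unfold ray at h1
      simp only at h1
      have e : (((⟨a.1, a.2⟩ : ℂ) + (s : ℂ) * (w - ⟨a.1, a.2⟩)).re,
          ((⟨a.1, a.2⟩ : ℂ) + (s : ℂ) * (w - ⟨a.1, a.2⟩)).im) =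
          (a.1 + s * (w.re - a.1), a.2 + s * (w.im - a.2)) := by
        simp
      rw [e]
      exact h1)
  have hn0 : ENNReal.ofReal q ≠ 0 := by
    rw [Ne, ENNReal.ofReal_eq_zero, not_le]
    exact hq0
  rw [eLpNorm_eq_lintegral_rpow_enorm_toReal hn0 ENNReal.ofReal_ne_top,
    eLpNorm_eq_lintegral_rpow_enorm_toReal hn0 ENNReal.ofReal_ne_top,
    ENNReal.toReal_ofReal hq0.le, lint_Ext f hf q]
  have hg2 : ∫⁻ x : ℝ × ℝ, ‖g x‖ₑ ^ q = ∫⁻ w : ℂ, ‖g (w.re, w.im)‖ₑ ^ q := by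
    have hm3 : Measurable (fun x : ℝ × ℝ => ‖g x‖ₑ ^ q) := hg.enorm.pow_const q
    rw [← Complex.volume_preserving_equiv_real_prod.lintegral_comp hm3]
    apply lintegral_congr
    intro z
    simp only [Complex.measurableEquivRealProd_apply]
  rw [hg2, ← ENNReal.mul_rpow_of_nonneg _ _ (by positivity)]
  exact ENNReal.rpow_le_rpow key (by positivity)

end Pool.Agent.Results.MP_5ab805_an.VariationAlongRays
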